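import Pool.Agent.MP_542436_nt.Sp.Spec

/-! The zero estimate `ZeroStmt`: a resultant with local multiplicity. -/

set_option autoImplicit false

namespace Pool.Agent.MP_542436_nt.H42

open Polynomial Finset Pool.Agent.MP_542436_nt.Sp

/-- Weighted divisibility of a determinant. -/
lemma pow_dvd_det {R : Type} [CommRing R] {ι : Type} [Fintype ι] [DecidableEq ι]
    (M : Matrix ι ι R) (u : R) (α β : ι → ℕ) (h : ∀ i j, u ^ (β j - α i) ∣ M i j) :
    u ^ (∑ j, β j - ∑ i, α i) ∣ M.det := by
  rw [Matrix.det_apply]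
  refine Finset.dvd_sum fun σ _ => ?_
  rw [Units.smul_def, zsmul_eq_mul]
  refine Dvd.dvd.mul_left ?_ _
  have h1 : ∏ j, u ^ (β j - α (σ j)) ∣ ∏ j, M (σ j) j :=
    Finset.prod_dvd_prod_of_dvd _ _ fun j _ => h (σ j) j
  rw [Finset.prod_pow_eq_pow_sum] at h1
  refine (pow_dvd_pow u ?_).trans h1
  have h2 : ∑ i, α i = ∑ j, α (σ j) := (Equiv.sum_comp σ α).symm
  have h3 : ∑ j, β j ≤ ∑ j, ((β j - α (σ j)) + α (σ j)) :=
    Finset.sum_le_sum fun j _ => by omega
  rw [Finset.sum_add_distrib] at h3
  omega

/-- Degree of a determinant. -/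
lemma natDegree_det_le {R : Type} [CommRing R] {ι : Type} [Fintype ι] [DecidableEq ι]
    (M : Matrix ι ι R[X]) (D : ℕ) (h : ∀ i j, (M i j).natDegree ≤ D) :
    M.det.natDegree ≤ Fintype.card ι * D := by
  rw [Matrix.det_apply]
  refine natDegree_sum_le_of_forall_le _ _ fun σ _ => ?_
  rw [Units.smul_def]
  refine (natDegree_smul_le _ _).trans ((natDegree_prod_le _ _).trans ?_)
  calc ∑ j, (M (σ j) j).natDegree ≤ ∑ _j : ι, D := Finset.sum_le_sum fun j _ => h _ _
    _ = Fintype.card ι * D := by simp

/-- The resultant with fixed sizes is invariant under a shift. -/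
lemma resultant_taylor' {R : Type} [CommRing R] (f g : R[X]) (c : R) (n : ℕ)
    (hf : f.natDegree = n) (hg : g.natDegree ≤ n) :
    resultant (taylor c f) (taylor c g) n n = resultant f g n n := by
  obtain ⟨k, hk⟩ := Nat.exists_eq_add_of_le hg
  have e1 : resultant f g n n = f.coeff n ^ k * resultant f g n g.natDegree := by
    have := resultant_add_right_deg f g n g.natDegree k le_rfl
    rwa [← hk] at this
  have e2 : resultant (taylor c f) (taylor c g) n n =
      (taylor c f).coeff n ^ k * resultant (taylor c f) (taylor c g) n g.natDegree := by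
    have := resultant_add_right_deg (taylor c f) (taylor c g) n g.natDegree k
      (natDegree_taylor g c).le
    rwa [← hk] at this
  have e3 := resultant_taylor f g c
  rw [natDegree_taylor, natDegree_taylor, hf] at e3
  have e4 : (taylor c f).coeff n = f.coeff n := by
    rw [← hf, coeff_taylor_natDegree, coeff_natDegree]
  rw [e1, e2, e3, e4]

lemma sum_aux (r : ℕ) : ∀ N : ℕ, r ≤ N →
    2 * ∑ j ∈ range N, min (2 * j) (2 * r) + (r + 1) * r ≤
      2 * ∑ j ∈ range N, min (r + j) (2 * r) := by
  intro N hN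
  induction N, hN using Nat.le_induction with
  | base =>
    have e1 : ∑ j ∈ range r, min (2 * j) (2 * r) = ∑ j ∈ range r, 2 * j :=
      Finset.sum_congr rfl fun j hj => by have := Finset.mem_range.1 hj; omega
    have e2 : ∑ j ∈ range r, min (r + j) (2 * r) = ∑ j ∈ range r, (r + j) :=
      Finset.sum_congr rfl fun j hj => by have := Finset.mem_range.1 hj; omega
    rw [e1, e2, ← Finset.mul_sum, Finset.sum_add_distrib]
    have e3 := Finset.sum_range_id_mul_two r
    simp only [Finset.sum_const, Finset.card_range, smul_eq_mul]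
    rcases r with _ | r
    · simp
    · simp only [Nat.add_sub_cancel] at e3
      nlinarith
  | succ N hN ih =>
    rw [Finset.sum_range_succ, Finset.sum_range_succ]
    have e1 : min (2 * N) (2 * r) = 2 * r := by omega
    have e2 : min (r + N) (2 * r) = 2 * r := by omega
    rw [e1, e2]
    omega

lemma sum_two (F : ℕ → ℕ) (n : ℕ) :
    ∑ j ∈ range n, F (2 * j) + ∑ j ∈ range n, F (2 * j + 1) = ∑ j ∈ range (n + n), F j := by
  induction n with
  | zero => simp
  | succ n ih =>
    have : n + 1 + (n + 1) = n + n + 1 + 1 := by omega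
    rw [this, Finset.sum_range_succ, Finset.sum_range_succ, Finset.sum_range_succ,
      Finset.sum_range_succ, ← ih, ← two_mul]
    omega

/-- Local multiplicity of the resultant. -/
lemma local_dvd {R : Type} [CommRing R] (f g : R[X]) (u : R) (n r : ℕ) (hr : r ≤ n + n)
    (hf : ∀ j, u ^ (r + 1 - 2 * j) ∣ f.coeff j) (hg : ∀ j, u ^ (r - 2 * j) ∣ g.coeff j) :
    ∃ e, (r + 1) * r ≤ 2 * e ∧ u ^ e ∣ resultant f g n n := by
  let α : Fin (n + n) → ℕ := fun i => min (2 * (i : ℕ)) (2 * r)
  let β : Fin (n + n) → ℕ := fun j => j.addCases (fun k => min (r + 2 * (k : ℕ)) (2 * r))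
    (fun k => min (r + (2 * (k : ℕ) + 1)) (2 * r))
  refine ⟨∑ j, β j - ∑ i, α i, ?_, ?_⟩
  · have e1 : ∑ i, α i = ∑ j ∈ range (n + n), min (2 * j) (2 * r) :=
      Fin.sum_univ_eq_sum_range (fun j => min (2 * j) (2 * r)) (n + n)
    have e2 : ∑ j, β j = ∑ j ∈ range (n + n), min (r + j) (2 * r) := by
      rw [Fin.sum_univ_add, ← sum_two (fun j => min (r + j) (2 * r)) n]
      simp only [β, Fin.addCases_left, Fin.addCases_right]
      rw [Fin.sum_univ_eq_sum_range (fun k => min (r + 2 * k) (2 * r)) n,
        Fin.sum_univ_eq_sum_range (fun k => min (r + (2 * k + 1)) (2 * r)) n]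
    have := sum_aux r (n + n) hr
    omega
  · refine pow_dvd_det _ u α β fun i j => ?_
    induction j using Fin.addCases with
    | left k =>
      simp only [sylvester, Matrix.of_apply, β, α, Fin.addCases_left, Set.mem_Icc]
      split_ifs with h
      · exact (pow_dvd_pow u (by omega)).trans (hg _)
      · exact dvd_zero _
    | right k =>
      simp only [sylvester, Matrix.of_apply, β, α, Fin.addCases_right, Set.mem_Icc]
      split_ifs with h
      · exact (pow_dvd_pow u (by omega)).trans (hf _)
      · exact dvd_zero _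

lemma natDegree_resultant_le {R : Type} [CommRing R] (f g : R[X][X]) (n D : ℕ)
    (hf : ∀ j, (f.coeff j).natDegree ≤ D) (hg : ∀ j, (g.coeff j).natDegree ≤ D) :
    (resultant f g n n).natDegree ≤ (n + n) * D := by
  have := natDegree_det_le (sylvester f g n n) D (fun i j => by
    induction j using Fin.addCases with
    | left k =>
      simp only [sylvester, Matrix.of_apply, Fin.addCases_left]
      split_ifs with h
      · exact hg _
      · simp
    | right k =>
      simp only [sylvester, Matrix.of_apply, Fin.addCases_right]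
      split_ifs with h
      · exact hf _
      · simp)
  rwa [Fintype.card_fin] at this

lemma coeff_le_dS {R : Type} [CommRing R] (f : R[X][X]) (k : ℕ) :
    (f.coeff k).natDegree ≤ dS f := by
  by_cases h : f.coeff k = 0
  · simp [h]
  · exact Finset.le_sup (f := fun k => (f.coeff k).natDegree) (mem_support_iff.2 h)

lemma dS_le {R : Type} [CommRing R] (f : R[X][X]) (D : ℕ) (h : ∀ k, (f.coeff k).natDegree ≤ D) :
    dS f ≤ D := Finset.sup_le fun k _ => h k

lemma ds_coeff_le (hB : BaseStmt) {R : Type} [CommRing R] (f : R[X][X]) (k : ℕ) :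
    ((ds f).coeff k).natDegree ≤ dS f - 1 := by
  rw [hB.coeff_ds]
  exact (natDegree_derivative_le _).trans (Nat.sub_le_sub_right (coeff_le_dS f k) 1)

lemma ds_natDegree_le (hB : BaseStmt) {R : Type} [CommRing R] (f : R[X][X]) :
    (ds f).natDegree ≤ f.natDegree := by
  rw [natDegree_le_iff_coeff_eq_zero]
  intro N hN
  rw [hB.coeff_ds, coeff_eq_zero_of_natDegree_lt hN, derivative_zero]

lemma ds_ne_zero (hB : BaseStmt) (g : ℤ[X][X]) (h : 1 ≤ dS g) : ds g ≠ 0 := by
  intro h0
  have : dS g ≤ 0 := dS_le g 0 fun k => by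
    have h1 := hB.coeff_ds ℤ g k
    rw [h0, coeff_zero] at h1
    exact (derivative_eq_zero.1 h1.symm).le
  omega

lemma not_dvd_ds (hB : BaseStmt) (g : ℤ[X][X]) (hg : g ≠ 0) (h : 1 ≤ dS g) : ¬ g ∣ ds g := by
  rintro ⟨k, hk⟩
  have h0 := ds_ne_zero hB g h
  have hk0 : k ≠ 0 := by rintro rfl; exact h0 (by rw [hk, mul_zero])
  have h1 := hB.dS_mul ℤ g k hg hk0
  have h2 : dS (ds g) ≤ dS g - 1 := dS_le _ _ (ds_coeff_le hB g)
  rw [← hk] at h1
  omega

/-- The resultant of an irreducible polynomial and a polynomial it does not divide. -/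
lemma res_ne_zero {R : Type} [CommRing R] [IsDomain R] [UniqueFactorizationMonoid R] {P Q : R[X]}
    (hP : Irreducible P) (h0 : P.natDegree ≠ 0) (hQ : ¬ P ∣ Q) : resultant P Q ≠ 0 := by
  let _ : NormalizedGCDMonoid R := Nonempty.some inferInstance
  have h1 : P.IsPrimitive := hP.isPrimitive h0
  have h2 := (h1.irreducible_iff_irreducible_map_fraction_map (K := FractionRing R)).1 hP
  have h3 : ¬ P.map (algebraMap R (FractionRing R)) ∣ Q.map (algebraMap R (FractionRing R)) :=
    fun h => hQ (h1.dvd_of_fraction_map_dvd_fraction_map h)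
  have h4 := resultant_ne_zero _ _ ((h2.coprime_iff_not_dvd).2 h3)
  have hi := IsFractionRing.injective R (FractionRing R)
  rw [natDegree_map_eq_of_injective hi, natDegree_map_eq_of_injective hi, resultant_map_map] at h4
  intro h
  exact h4 (by rw [h, map_zero])

/-- The resultant of `g` and its derivative in `s`: nonzero, of small degree. -/
lemma res_facts (hB : BaseStmt) (g : ℤ[X][X]) (hg : Irreducible g) (hm : 1 ≤ dS g)
    (hn : g.natDegree ≠ 0) :
    resultant g (ds g) g.natDegree g.natDegree ≠ 0 ∧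
      (resultant g (ds g) g.natDegree g.natDegree).natDegree ≤
        (g.natDegree + g.natDegree) * (dS g - 1) := by
  have hd := ds_natDegree_le hB g
  have hne : resultant g (ds g) g.natDegree g.natDegree ≠ 0 := by
    obtain ⟨k, hk⟩ := Nat.exists_eq_add_of_le hd
    have e1 := resultant_add_right_deg g (ds g) g.natDegree (ds g).natDegree k le_rfl
    rw [← hk] at e1
    rw [e1]
    exact mul_ne_zero (pow_ne_zero _ (leadingCoeff_ne_zero.2 hg.ne_zero))
      (res_ne_zero hg hn (not_dvd_ds hB g hg.ne_zero hm))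
  refine ⟨hne, ?_⟩
  have e2 := resultant_add_mul_left (C (C (dS g : ℤ)) * g) (ds g) (C (-X)) g.natDegree g.natDegree
    (by rw [natDegree_C, zero_add]) hd
  rw [resultant_C_mul_left] at e2
  have e3 := natDegree_resultant_le (C (C (dS g : ℤ)) * g + ds g * C (-X)) (ds g) g.natDegree
    (dS g - 1) (fun j => by
      rw [natDegree_le_iff_coeff_eq_zero]
      intro N hN
      obtain ⟨N, rfl⟩ : ∃ N', N = N' + 1 := ⟨N - 1, by omega⟩
      rw [coeff_add, coeff_C_mul, coeff_mul_C, hB.coeff_ds, coeff_add, coeff_C_mul, mul_neg,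
        coeff_neg, coeff_mul_X, coeff_derivative]
      rcases eq_or_ne (N + 1) (dS g) with h | h
      · rw [← h]; push_cast; ring
      · have : (g.coeff j).coeff (N + 1) = 0 :=
          coeff_eq_zero_of_natDegree_lt ((coeff_le_dS g j).trans_lt (by omega))
        rw [this]; ring) (ds_coeff_le hB g)
  rw [e2, ← C_pow, natDegree_C_mul (pow_ne_zero _ (by exact_mod_cast (by omega)))] at e3
  exact e3

lemma natDegree_up (L : Type) [CommRing L] [CharZero L] (g : ℤ[X][X]) :
    (up L g).natDegree = g.natDegree := by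
  refine natDegree_map_eq_of_injective ?_ g
  exact map_injective _ (Int.castRingHom L).injective_int

lemma coeff_up (L : Type) [CommRing L] (g : ℤ[X][X]) (k : ℕ) :
    (up L g).coeff k = (g.coeff k).map (Int.castRingHom L) := by
  rw [up, coeff_map, coe_mapRingHom]

theorem zero (hB : BaseStmt) (hN : NzStmt) : ZeroStmt := by
  intro K _ _ d θ ω hθ hω g r hg hm hr hO
  have h1 : 1 ≤ g.natDegree := by
    by_contra h0
    have h0 : g.natDegree = 0 := by omega
    have e0 := eq_C_of_natDegree_eq_zero h0
    set g0 := g.coeff 0 with hg0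
    have hi : Irreducible g0 := by
      rw [e0] at hg
      exact Irreducible.of_map (f := (C : ℤ[X] →+* ℤ[X][X])) hg
    have hdeg : g0.natDegree ≠ 0 := by
      intro h
      have : dS g ≤ 0 := dS_le g 0 fun k => by
        rcases eq_or_ne k 0 with rfl | hk
        · exact h.le
        · rw [coeff_eq_zero_of_natDegree_lt (by omega)]; simp
      omega
    have hnd : ¬ g0 ∣ derivative g0 := by
      intro h
      have hz : derivative g0 ≠ 0 := fun h => hdeg (derivative_eq_zero.1 h)
      have h2 := natDegree_le_of_dvd h hz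
      have h3 := natDegree_derivative_lt hdeg
      omega
    have hres := res_ne_zero hi hdeg hnd
    obtain ⟨U, V, -, -, hUV⟩ := exists_mul_add_mul_eq_C_resultant g0 (derivative g0) le_rfl le_rfl
      (Or.inl hdeg)
    have hdv : (X - C ω) ^ 2 ∣ g0.map (Int.castRingHom K) := by
      have := hO 0
      rw [e0, up, map_C, taylor_C, coeff_C_zero, coe_mapRingHom] at this
      exact (pow_dvd_pow _ (by omega)).trans this
    have hd1 : (X - C ω) ∣ g0.map (Int.castRingHom K) := (dvd_pow_self _ two_ne_zero).trans hdv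
    have hd2 : (X - C ω) ∣ (derivative g0).map (Int.castRingHom K) := by
      rw [← derivative_map]
      have := pow_sub_one_dvd_derivative_of_pow_dvd hdv
      simpa using this
    have hd3 : (X - C ω) ∣ (C (resultant g0 (derivative g0))).map (Int.castRingHom K) := by
      rw [← hUV, Polynomial.map_add, Polynomial.map_mul, Polynomial.map_mul]
      exact dvd_add (hd1.mul_right _) (hd2.mul_right _)
    rw [map_C, dvd_iff_isRoot, IsRoot.def, eval_C] at hd3
    exact hres (by simpa using hd3)
  have h2 : r ≤ dS g := by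
    have hz := (hN K g hg θ).1 hm
    have hdv := hO 0
    rw [taylor_coeff_zero] at hdv
    have h3 := natDegree_le_of_dvd hdv hz
    rw [natDegree_pow, natDegree_X_sub_C] at h3
    have h4 : ((up K g).eval (C θ)).natDegree ≤ dS g := by
      rw [eval_eq_sum_range]
      refine natDegree_sum_le_of_forall_le _ _ fun k _ => ?_
      rw [← C_pow]
      refine (natDegree_mul_C_le _ _).trans ?_
      rw [coeff_up]
      exact natDegree_map_le.trans (coeff_le_dS g k)
    omega
  have h3 : r ≤ 2 * g.natDegree := by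
    by_contra h0
    apply (hN K g hg ω).2 h1
    rw [← taylor_eq_zero (r := θ)]
    have e1 := map_taylor (up K g) (C θ) (evalRingHom ω)
    rw [coe_evalRingHom, eval_C] at e1
    rw [← e1]
    ext j
    rw [coeff_map, coeff_zero, coe_evalRingHom]
    by_cases hj : j ≤ g.natDegree
    · have : (X - C ω) ∣ (taylor (C θ) (up K g)).coeff j :=
        (dvd_pow_self _ (by omega)).trans (hO j)
      exact dvd_iff_isRoot.1 this
    · rw [coeff_eq_zero_of_natDegree_lt (by rw [natDegree_taylor, natDegree_up]; omega), eval_zero]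
  refine ⟨h1, h2, h3, fun _ => ?_⟩
  obtain ⟨hne, hdeg⟩ := res_facts hB g hg hm (by omega)
  obtain ⟨r, rfl⟩ : ∃ r', r = r' + 1 := ⟨r - 1, by omega⟩
  set n := g.natDegree with hn
  set Rz := resultant g (ds g) n n with hRz
  have hi : Function.Injective (Int.castRingHom ℂ) := (Int.castRingHom ℂ).injective_int
  have hRC : Rz.map (Int.castRingHom ℂ) = resultant (up ℂ g) (ds (up ℂ g)) n n := by
    rw [← hB.up_ds, up, up, resultant_map_map, coe_mapRingHom]
  have hloc : ∀ σ : K →+* ℂ, (X - C (σ ω)) ^ ((r + 1) * r / 2) ∣ Rz.map (Int.castRingHom ℂ) := by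
    intro σ
    have o1 := hB.ord_map K ℂ σ ω θ (r + 1) _ hO
    rw [hB.up_map] at o1
    have o2 := hB.ord_ds ℂ _ _ _ _ o1
    rw [Nat.add_sub_cancel] at o2
    obtain ⟨e, he, hd⟩ := local_dvd _ _ (X - C (σ ω)) n r (by omega) o1 o2
    rw [resultant_taylor' _ _ _ _ (natDegree_up ℂ g)
      ((ds_natDegree_le hB _).trans (natDegree_up ℂ g).le), ← hRC] at hd
    exact (pow_dvd_pow _ (by omega)).trans hd
  have hprod : ∏ σ : K →+* ℂ, (X - C (σ ω)) ^ ((r + 1) * r / 2) ∣ Rz.map (Int.castRingHom ℂ) := by
    refine Finset.prod_dvd_of_coprime ?_ fun σ _ => hloc σ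
    intro σ _ τ _ hst
    exact (pairwise_coprime_X_sub_C hω hst).pow
  have hle := natDegree_le_of_dvd hprod ((Polynomial.map_ne_zero_iff hi).2 hne)
  rw [natDegree_map_eq_of_injective hi, natDegree_prod_of_monic _ _
    (fun σ _ => (monic_X_sub_C _).pow _)] at hle
  simp only [natDegree_pow, natDegree_X_sub_C, mul_one, Finset.sum_const, Finset.card_univ,
    smul_eq_mul, NumberField.Embeddings.card, hθ.rk] at hle
  have hev : 2 * ((r + 1) * r / 2) = (r + 1) * r := by
    have := Nat.even_mul_succ_self r
    rw [mul_comm r] at this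
    exact Nat.two_mul_div_two_of_even this
  rw [Nat.add_sub_cancel, ← hev]
  have := hle.trans hdeg
  nlinarith

end Pool.Agent.MP_542436_nt.H42
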